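import Pool.Agent.Y251.CL.Stm

/-!
Project CL: half-space charts can be pushed off compact sets.
-/

open scoped Manifold ContDiff Topology
open Set

namespace Pool.Agent.Y77.CL

open Pool.Agent.H718R2.G Pool.Agent.Y251.CL

/-- AVOID: half-space charts can be pushed off compact sets -/
theorem avoid.{u} : S_AVOID.{u} := by
  intro n _ M _ _ _ _ K hK ⟨φ, hφ, hA, hcl⟩
  have hcoord : Continuous (fun v : V n => v 0) :=
    (EuclideanSpace.proj (0 : Fin n) : V n →L[ℝ] ℝ).continuous
  set A : Set (V n) := {v : V n | 0 ≤ v 0} with hAdef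
  have hS : IsCompact (φ.symm '' A ∩ K) := hK.inter_left hcl
  have hSs : φ.symm '' A ∩ K ⊆ φ.source := by
    rintro _ ⟨⟨v, hv, rfl⟩, _⟩
    exact φ.map_target (hA hv)
  have hI : IsCompact ((fun v : V n => v 0) '' (φ '' (φ.symm '' A ∩ K))) :=
    (hS.image_of_continuousOn (φ.continuousOn.mono hSs)).image hcoord
  obtain ⟨b, hb⟩ := hI.bddAbove
  let T : ℝ := max b 0 + 1
  have hT0 : 0 ≤ T := by
    have := le_max_right b 0
    change 0 ≤ max b 0 + 1
    linarith
  have hTS : ∀ m ∈ φ.symm '' A ∩ K, φ m 0 < T := by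
    intro m hm
    have h1 : φ m 0 ≤ b := hb ⟨φ m, ⟨m, hm, rfl⟩, rfl⟩
    have h2 := le_max_left b 0
    change φ m 0 < max b 0 + 1
    linarith
  let c : V n := EuclideanSpace.single 0 T
  have hc0 : c 0 = T := by simp [c]
  let φ' : OpenPartialHomeomorph M (V n) := φ.transHomeomorph (Homeomorph.addRight c).symm
  have hsymm : ∀ v, φ'.symm v = φ.symm (v + c) := fun v => rfl
  have hfun : ∀ m, φ' m = φ m + -c := fun v => rfl
  have htar : ∀ v, v ∈ φ'.target ↔ v + c ∈ φ.target := fun v => Iff.rfl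
  have hsrc : φ'.source = φ.source := rfl
  have hB : φ.symm '' {v : V n | T ≤ v 0} =
      φ.symm '' A ∩ (φ.source ∩ φ ⁻¹' {v : V n | v 0 < T})ᶜ := by
    ext m
    constructor
    · rintro ⟨v, hv, rfl⟩
      have hvA : v ∈ A := hT0.trans hv
      refine ⟨⟨v, hvA, rfl⟩, fun h => ?_⟩
      have h1 : (φ (φ.symm v)) 0 < T := h.2
      rw [φ.right_inv (hA hvA)] at h1
      exact absurd hv (not_le.2 h1)
    · rintro ⟨⟨v, hv, rfl⟩, h⟩
      refine ⟨v, ?_, rfl⟩
      by_contra h1
      refine h ⟨φ.map_target (hA hv), ?_⟩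
      change (φ (φ.symm v)) 0 < T
      rw [φ.right_inv (hA hv)]
      exact not_le.1 h1
  have hB' : φ'.symm '' A = φ.symm '' {v : V n | T ≤ v 0} := by
    ext m
    constructor
    · rintro ⟨v, hv, rfl⟩
      refine ⟨v + c, ?_, rfl⟩
      change T ≤ v 0 + c 0
      rw [hc0]
      have : 0 ≤ v 0 := hv
      linarith
    · rintro ⟨v, hv, rfl⟩
      refine ⟨v + -c, ?_, ?_⟩
      · change 0 ≤ v 0 + -(c 0)
        rw [hc0]
        have : T ≤ v 0 := hv
        linarith
      · rw [hsymm, neg_add_cancel_right]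
  refine ⟨φ', ?_, ?_, ?_, ?_⟩
  · apply OpenPartialHomeomorph.mem_maximalAtlas_of_contMDiffOn
    · have h1 : ContMDiff (𝓡 n) (𝓡 n) ∞ (fun v : V n => v + -c) :=
        (contDiff_id.add contDiff_const).contMDiff
      exact h1.comp_contMDiffOn (contMDiffOn_of_mem_maximalAtlas hφ)
    · have h1 : ContMDiff (𝓡 n) (𝓡 n) ∞ (fun v : V n => v + c) :=
        (contDiff_id.add contDiff_const).contMDiff
      exact (contMDiffOn_symm_of_mem_maximalAtlas hφ).comp h1.contMDiffOn
        (fun v hv => (htar v).1 hv)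
  · intro v hv
    rw [htar]
    apply hA
    change 0 ≤ v 0 + c 0
    rw [hc0]
    have : 0 ≤ v 0 := hv
    linarith
  · rw [hB', hB]
    exact hcl.inter (φ.continuousOn.isOpen_inter_preimage φ.open_source
      (isOpen_lt hcoord continuous_const)).isClosed_compl
  · rw [hB', Set.disjoint_left]
    rintro _ ⟨v, hv, rfl⟩ hmK
    have hvA : v ∈ A := hT0.trans hv
    have h1 := hTS (φ.symm v) ⟨⟨v, hvA, rfl⟩, hmK⟩
    rw [φ.right_inv (hA hvA)] at h1
    exact absurd hv (not_le.2 h1)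

end Pool.Agent.Y77.CL
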